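import Mathlib
import Pool.Agent.H773.LK.Spec

/-!
# Project LK: the null set lemma (S_NULL)
-/

set_option autoImplicit false

noncomputable section

namespace Pool.Agent.H293.LK

open MeasureTheory Filter Topology Set
open scoped ENNReal NNReal
open Pool.Agent.H773.LK

/-- the derivatives in the first variable -/
def dv (D : ℂ → ℝ → ℂ) (n : ℕ) (w : ℂ) (l : ℝ) : ℂ := iteratedDeriv n (fun u => D u l) w

section

variable {θ₀ lam₀ r δ C : ℝ} {D : ℂ → ℝ → ℂ}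
  (hD : ∀ lam : ℝ, |lam - lam₀| < δ →
    DifferentiableOn ℂ (fun θ => D θ lam) (Metric.ball (θ₀ : ℂ) r))

include hD

theorem dv_diff (n : ℕ) {l : ℝ} (hl : |l - lam₀| < δ) {w : ℂ} (hw : w ∈ Metric.ball (θ₀ : ℂ) r) :
    DifferentiableAt ℂ (fun u => dv D n u l) w := by
  have h1 : AnalyticOnNhd ℂ (fun θ => D θ l) (Metric.ball (θ₀ : ℂ) r) :=
    (hD l hl).analyticOnNhd Metric.isOpen_ball
  have h2 := (h1.iterated_deriv n) w hw
  rw [← iteratedDeriv_eq_iterate] at h2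
  exact h2.differentiableAt

omit hD in
theorem dv_succ (n : ℕ) (l : ℝ) (w : ℂ) : deriv (fun u => dv D n u l) w = dv D (n + 1) w l := by
  unfold dv
  rw [iteratedDeriv_succ]

theorem dv_lip (hL : ∀ θ ∈ Metric.ball (θ₀ : ℂ) r, ∀ lam lam' : ℝ, |lam - lam₀| < δ →
      |lam' - lam₀| < δ → ‖D θ lam - D θ lam'‖ ≤ C * |lam - lam'|)
    (n : ℕ) {w₁ : ℂ} (hw : w₁ ∈ Metric.ball (θ₀ : ℂ) r) : ∃ ρ C' : ℝ, 0 < ρ ∧ 0 ≤ C' ∧
      Metric.ball w₁ ρ ⊆ Metric.ball (θ₀ : ℂ) r ∧ ∀ w ∈ Metric.ball w₁ ρ, ∀ l l' : ℝ,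
        |l - lam₀| < δ → |l' - lam₀| < δ → ‖dv D n w l - dv D n w l'‖ ≤ C' * |l - l'| := by
  have hd : 0 < r - dist w₁ θ₀ := sub_pos.2 (Metric.mem_ball.1 hw)
  obtain ⟨R, hR⟩ : ∃ R, R = (r - dist w₁ θ₀) / 4 := ⟨_, rfl⟩
  have hR0 : 0 < R := by rw [hR]; positivity
  refine ⟨R, n.factorial * |C| / R ^ n, hR0, by positivity, ?_, ?_⟩
  · refine Metric.ball_subset_ball' ?_
    rw [hR]
    linarith
  · intro w hw' l l' hl hl'
    have hsub : Metric.closedBall w R ⊆ Metric.ball (θ₀ : ℂ) r := by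
      intro u hu
      rw [Metric.mem_closedBall] at hu
      rw [Metric.mem_ball] at hw' ⊢
      have h1 := dist_triangle u w θ₀
      have h2 := dist_triangle w w₁ θ₀
      linarith
    have hwm : w ∈ Metric.ball (θ₀ : ℂ) r := hsub (Metric.mem_closedBall_self hR0.le)
    have han : ∀ m : ℝ, |m - lam₀| < δ → AnalyticAt ℂ (fun u => D u m) w := fun m hm =>
      (hD m hm).analyticAt (Metric.isOpen_ball.mem_nhds hwm)
    have hsubd : iteratedDeriv n ((fun u => D u l) - fun u => D u l') w =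
        dv D n w l - dv D n w l' :=
      iteratedDeriv_sub (han l hl).contDiffAt (han l' hl').contDiffAt
    have hdc : DiffContOnCl ℂ ((fun u => D u l) - fun u => D u l') (Metric.ball w R) := by
      refine DifferentiableOn.diffContOnCl ?_
      refine DifferentiableOn.mono ((hD l hl).sub (hD l' hl')) ?_
      exact (closure_mono Metric.ball_subset_closedBall).trans
        (Metric.isClosed_closedBall.closure_eq.subset.trans hsub)
    have hest := Complex.norm_iteratedDeriv_le_of_forall_mem_sphere_norm_le n hR0 hdc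
      (C := |C| * |l - l'|) (fun z hz => by
        refine (hL z (hsub (Metric.sphere_subset_closedBall hz)) l l' hl hl').trans ?_
        exact mul_le_mul_of_nonneg_right (le_abs_self C) (abs_nonneg _))
    rw [hsubd] at hest
    refine hest.trans (le_of_eq ?_)
    ring

theorem dv_near (hL : ∀ θ ∈ Metric.ball (θ₀ : ℂ) r, ∀ lam lam' : ℝ, |lam - lam₀| < δ →
      |lam' - lam₀| < δ → ‖D θ lam - D θ lam'‖ ≤ C * |lam - lam'|)
    (n : ℕ) {w₁ : ℂ} (hw : w₁ ∈ Metric.ball (θ₀ : ℂ) r) {l₁ : ℝ} (hl₁ : |l₁ - lam₀| < δ)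
    {ε : ℝ} (hε : 0 < ε) : ∃ ρ : ℝ, 0 < ρ ∧ Metric.ball w₁ ρ ⊆ Metric.ball (θ₀ : ℂ) r ∧
      (∀ l : ℝ, |l - l₁| < ρ → |l - lam₀| < δ) ∧
      ∀ w ∈ Metric.ball w₁ ρ, ∀ l : ℝ, |l - l₁| < ρ → ‖dv D n w l - dv D n w₁ l₁‖ ≤ ε := by
  obtain ⟨ρ₁, C', hρ₁, hC', hsub, hlip⟩ := dv_lip hD hL n hw
  have hcont : ContinuousAt (fun u => dv D n u l₁) w₁ := (dv_diff hD n hl₁ hw).continuousAt
  obtain ⟨ρ₂, hρ₂, hc⟩ := Metric.continuousAt_iff.1 hcont (ε / 2) (by positivity)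
  obtain ⟨ρ, hρ⟩ : ∃ ρ, ρ = min (min ρ₁ ρ₂) (min (δ - |l₁ - lam₀|) (ε / (2 * (C' + 1)))) :=
    ⟨_, rfl⟩
  have h1 : ρ ≤ ρ₁ := hρ ▸ (min_le_left _ _).trans (min_le_left _ _)
  have h2 : ρ ≤ ρ₂ := hρ ▸ (min_le_left _ _).trans (min_le_right _ _)
  have h3 : ρ ≤ δ - |l₁ - lam₀| := hρ ▸ (min_le_right _ _).trans (min_le_left _ _)
  have h4 : ρ ≤ ε / (2 * (C' + 1)) := hρ ▸ (min_le_right _ _).trans (min_le_right _ _)
  have hl : ∀ l : ℝ, |l - l₁| < ρ → |l - lam₀| < δ := by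
    intro l hl
    have h5 := abs_sub_le l l₁ lam₀
    linarith
  refine ⟨ρ, ?_, (Metric.ball_subset_ball h1).trans hsub, hl, ?_⟩
  · rw [hρ]
    exact lt_min (lt_min hρ₁ hρ₂) (lt_min (sub_pos.2 hl₁) (by positivity))
  · intro w hw' l hl'
    have h5 := hlip w (Metric.ball_subset_ball h1 hw') l l₁ (hl l hl') hl₁
    have h6 : ‖dv D n w l₁ - dv D n w₁ l₁‖ < ε / 2 := by
      rw [← dist_eq_norm]
      exact hc (lt_of_lt_of_le (Metric.mem_ball.1 hw') h2)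
    have h7 : C' * |l - l₁| ≤ ε / 2 := by
      have h8 : |l - l₁| ≤ ε / (2 * (C' + 1)) := hl'.le.trans h4
      calc C' * |l - l₁| ≤ (C' + 1) * (ε / (2 * (C' + 1))) :=
            mul_le_mul (by linarith) h8 (abs_nonneg _) (by linarith)
        _ = ε / 2 := by field_simp
    calc ‖dv D n w l - dv D n w₁ l₁‖ ≤ ‖dv D n w l - dv D n w l₁‖ +
          ‖dv D n w l₁ - dv D n w₁ l₁‖ := norm_sub_le_norm_sub_add_norm_sub _ _ _
      _ ≤ ε := by linarith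

/-- the local statement -/
theorem loc (hL : ∀ θ ∈ Metric.ball (θ₀ : ℂ) r, ∀ lam lam' : ℝ, |lam - lam₀| < δ →
      |lam' - lam₀| < δ → ‖D θ lam - D θ lam'‖ ≤ C * |lam - lam'|)
    (n : ℕ) {t₁ l₁ : ℝ} (ht : |t₁ - θ₀| < r) (hl₁ : |l₁ - lam₀| < δ)
    (hne : dv D (n + 1) t₁ l₁ ≠ 0) : ∃ ρ : ℝ, 0 < ρ ∧ ∀ B : Set ℝ, volume B = 0 →
      volume {t : ℝ | |t - t₁| < ρ ∧ ∃ l ∈ B, |l - l₁| < ρ ∧ dv D n t l = 0} = 0 := by
  have hw : (t₁ : ℂ) ∈ Metric.ball (θ₀ : ℂ) r := by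
    rw [Metric.mem_ball, Complex.dist_eq, ← Complex.ofReal_sub, Complex.norm_real]
    exact ht
  have hc : 0 < ‖dv D (n + 1) t₁ l₁‖ := norm_pos_iff.2 hne
  obtain ⟨c, hc'⟩ : ∃ c, c = ‖dv D (n + 1) t₁ l₁‖ := ⟨_, rfl⟩
  rw [← hc'] at hc
  obtain ⟨ρ₁, hρ₁, hsub₁, hl, hnear⟩ := dv_near hD hL (n + 1) hw hl₁ (half_pos hc)
  obtain ⟨ρ₂, C', hρ₂, hC', hsub₂, hlip⟩ := dv_lip hD hL n hw
  obtain ⟨ρ, hρ⟩ : ∃ ρ, ρ = min ρ₁ ρ₂ := ⟨_, rfl⟩
  have h1 : ρ ≤ ρ₁ := hρ ▸ min_le_left _ _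
  have h2 : ρ ≤ ρ₂ := hρ ▸ min_le_right _ _
  have hmem : ∀ t : ℝ, |t - t₁| < ρ → (t : ℂ) ∈ Metric.ball (t₁ : ℂ) ρ := by
    intro t ht
    rw [Metric.mem_ball, Complex.dist_eq, ← Complex.ofReal_sub, Complex.norm_real]
    exact ht
  -- the main estimate
  have key : ∀ t t' l l' : ℝ, |t - t₁| < ρ → |t' - t₁| < ρ → |l - l₁| < ρ → |l' - l₁| < ρ →
      dv D n t l = 0 → dv D n t' l' = 0 → |t - t'| ≤ (2 * C' / c) * |l - l'| := by
    intro t t' l l' ht ht' hll hll' h0 h0'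
    have hlδ := hl l (lt_of_lt_of_le hll h1)
    have hlδ' := hl l' (lt_of_lt_of_le hll' h1)
    have hA : ‖(dv D n t l - dv D (n + 1) t₁ l₁ * t) - (dv D n t' l - dv D (n + 1) t₁ l₁ * t')‖ ≤
        c / 2 * ‖(t : ℂ) - t'‖ := by
      refine Convex.norm_image_sub_le_of_norm_deriv_le (𝕜 := ℂ)
        (f := fun w => dv D n w l - dv D (n + 1) t₁ l₁ * w)
        (s := Metric.ball (t₁ : ℂ) ρ) (fun w hw' => ?_) (fun w hw' => ?_)
        (convex_ball _ _) (hmem t' ht') (hmem t ht)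
      · exact (dv_diff hD n hlδ (hsub₁ (Metric.ball_subset_ball h1 hw'))).sub
          ((differentiableAt_id).const_mul _)
      · have h3 : deriv (fun w => dv D n w l - dv D (n + 1) t₁ l₁ * w) w =
            dv D (n + 1) w l - dv D (n + 1) t₁ l₁ := by
          have h7 := ((dv_diff hD n hlδ (hsub₁ (Metric.ball_subset_ball h1 hw'))).hasDerivAt.sub
            ((hasDerivAt_id' w).const_mul (dv D (n + 1) t₁ l₁)))
          rw [mul_one] at h7
          rw [← dv_succ n l w]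
          exact h7.deriv
        rw [h3]
        exact hnear w (Metric.ball_subset_ball h1 hw') l (lt_of_lt_of_le hll h1)
    have hB : ‖dv D n t' l - dv D n t' l'‖ ≤ C' * |l - l'| :=
      hlip t' (Metric.ball_subset_ball h2 (hmem t' ht')) l l' hlδ hlδ'
    have hn : ‖(t : ℂ) - t'‖ = |t - t'| := by
      rw [← Complex.ofReal_sub, Complex.norm_real]
      rfl
    rw [h0', sub_zero] at hB
    rw [h0] at hA
    have h4 : ‖dv D (n + 1) t₁ l₁ * ((t : ℂ) - t')‖ = c * |t - t'| := by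
      rw [norm_mul, ← hc', hn]
    have h5 : dv D (n + 1) t₁ l₁ * ((t : ℂ) - t') =
        -((0 - dv D (n + 1) t₁ l₁ * t) - (dv D n t' l - dv D (n + 1) t₁ l₁ * t')) -
          dv D n t' l := by ring
    have h6 : c * |t - t'| ≤ c / 2 * |t - t'| + C' * |l - l'| := by
      rw [← h4]
      conv_lhs => rw [h5]
      refine (norm_sub_le _ _).trans ?_
      rw [norm_neg]
      rw [hn] at hA
      exact add_le_add hA hB
    rw [div_mul_eq_mul_div, le_div_iff₀ hc]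
    linarith
  refine ⟨ρ, by rw [hρ]; exact lt_min hρ₁ hρ₂, fun B hB => ?_⟩
  -- the zeros are the graph of a Lipschitz function
  classical
  let g : ℝ → ℝ := fun l => if h : ∃ t : ℝ, |t - t₁| < ρ ∧ dv D n t l = 0 then h.choose else 0
  let S : Set ℝ := {l | l ∈ B ∧ |l - l₁| < ρ ∧ ∃ t : ℝ, |t - t₁| < ρ ∧ dv D n t l = 0}
  have hg : ∀ l : ℝ, (∃ t : ℝ, |t - t₁| < ρ ∧ dv D n t l = 0) →
      |g l - t₁| < ρ ∧ dv D n (g l) l = 0 := by
    intro l h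
    have : g l = h.choose := dif_pos h
    rw [this]
    exact h.choose_spec
  have hgl : LipschitzOnWith (Real.toNNReal (2 * C' / c)) g S := by
    refine LipschitzOnWith.of_dist_le_mul fun l hl l' hl' => ?_
    obtain ⟨a1, a2⟩ := hg l hl.2.2
    obtain ⟨b1, b2⟩ := hg l' hl'.2.2
    rw [Real.coe_toNNReal _ (by positivity), Real.dist_eq, Real.dist_eq]
    exact key _ _ _ _ a1 b1 hl.2.1 hl'.2.1 a2 b2
  have hS : volume S = 0 := measure_mono_null (fun l hl => hl.1) hB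
  have hgS : volume (g '' S) = 0 := by
    have h3 := hgl.hausdorffMeasure_image_le zero_le_one
    rw [hausdorffMeasure_real, hS, mul_zero] at h3
    exact le_antisymm h3 bot_le
  refine measure_mono_null ?_ hgS
  rintro t ⟨ht', l, hlB, hll, h0⟩
  refine ⟨l, ⟨hlB, hll, t, ht', h0⟩, ?_⟩
  obtain ⟨a1, a2⟩ := hg l ⟨t, ht', h0⟩
  have h3 := key _ _ _ _ a1 ht' hll hll a2 h0
  rw [sub_self, abs_zero, mul_zero] at h3
  exact sub_eq_zero.1 (abs_eq_zero.1 (le_antisymm h3 (abs_nonneg _)))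

/-- zeros of a given order -/
theorem ord (hL : ∀ θ ∈ Metric.ball (θ₀ : ℂ) r, ∀ lam lam' : ℝ, |lam - lam₀| < δ →
      |lam' - lam₀| < δ → ‖D θ lam - D θ lam'‖ ≤ C * |lam - lam'|)
    (n : ℕ) (B : Set ℝ) (hB : volume B = 0) :
    volume {t : ℝ | |t - θ₀| < r ∧ ∃ l ∈ B, |l - lam₀| < δ ∧ dv D n t l = 0 ∧
      dv D (n + 1) t l ≠ 0} = 0 := by
  let E : Set (ℝ × ℝ) := {p | |p.1 - θ₀| < r ∧ |p.2 - lam₀| < δ ∧ dv D (n + 1) p.1 p.2 ≠ 0}
  have hloc : ∀ p : ℝ × ℝ, ∃ ρ : ℝ, p ∈ E → 0 < ρ ∧ ∀ B : Set ℝ, volume B = 0 →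
      volume {t : ℝ | |t - p.1| < ρ ∧ ∃ l ∈ B, |l - p.2| < ρ ∧ dv D n t l = 0} = 0 := by
    intro p
    by_cases hp : p ∈ E
    · obtain ⟨ρ, h1, h2⟩ := loc hD hL n hp.1 hp.2.1 hp.2.2
      exact ⟨ρ, fun _ => ⟨h1, h2⟩⟩
    · exact ⟨0, fun h => absurd h hp⟩
  choose ρ hρ using hloc
  obtain ⟨t, ht, htc, hcov⟩ := TopologicalSpace.countable_cover_nhdsWithin
    (f := fun p : ℝ × ℝ => {q : ℝ × ℝ | |q.1 - p.1| < ρ p ∧ |q.2 - p.2| < ρ p}) (s := E)
    (fun p hp => by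
      refine mem_nhdsWithin_of_mem_nhds (IsOpen.mem_nhds ?_ ?_)
      · exact (isOpen_lt (f := fun q : ℝ × ℝ => |q.1 - p.1|) (g := fun _ => ρ p)
          ((continuous_fst.sub continuous_const).abs) continuous_const).inter
          (isOpen_lt (f := fun q : ℝ × ℝ => |q.2 - p.2|) (g := fun _ => ρ p)
          ((continuous_snd.sub continuous_const).abs) continuous_const)
      · simp only [Set.mem_ofPred_eq, sub_self, abs_zero, and_self]
        exact (hρ p hp).1)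
  refine measure_mono_null (t := ⋃ p ∈ t, {t : ℝ | |t - p.1| < ρ p ∧
    ∃ l ∈ B, |l - p.2| < ρ p ∧ dv D n t l = 0}) ?_ ?_
  · rintro x ⟨hx, l, hl, hl', h0, h1⟩
    have h2 : ((x, l) : ℝ × ℝ) ∈ E := ⟨hx, hl', h1⟩
    have h3 := hcov h2
    rw [mem_iUnion₂] at h3 ⊢
    obtain ⟨p, hp, h4, h5⟩ := h3
    exact ⟨p, hp, h4, l, hl, h5, h0⟩
  · rw [measure_biUnion_null_iff htc]
    exact fun p hp => (hρ p (ht hp)).2 B hB

/-- some derivative does not vanish -/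
theorem exists_ord {l : ℝ} (hl : |l - lam₀| < δ)
    (hne : ∃ θ ∈ Metric.ball (θ₀ : ℂ) r, D θ l ≠ 0) {t : ℝ} (ht : |t - θ₀| < r)
    (h0 : D t l = 0) : ∃ n : ℕ, dv D n t l = 0 ∧ dv D (n + 1) t l ≠ 0 := by
  have hw : (t : ℂ) ∈ Metric.ball (θ₀ : ℂ) r := by
    rw [Metric.mem_ball, Complex.dist_eq, ← Complex.ofReal_sub, Complex.norm_real]
    exact ht
  by_contra hcon
  push Not at hcon
  have hall : ∀ n, dv D n t l = 0 := by
    intro n
    induction n with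
    | zero =>
      unfold dv
      rw [iteratedDeriv_zero]
      exact h0
    | succ n ih => exact hcon n ih
  obtain ⟨R, hR, hsub⟩ := Metric.isOpen_iff.1 Metric.isOpen_ball _ hw
  have hev : (fun θ => D θ l) =ᶠ[𝓝 (t : ℂ)] 0 := by
    filter_upwards [Metric.ball_mem_nhds _ hR] with z hz
    have h1 := Complex.hasSum_taylorSeries_on_ball ((hD l hl).mono hsub) hz
    have h2 : (fun n : ℕ => ((n.factorial : ℂ))⁻¹ • (z - t) ^ n •
        iteratedDeriv n (fun θ => D θ l) t) = fun _ => 0 := by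
      funext n
      have h3 : iteratedDeriv n (fun θ => D θ l) t = 0 := hall n
      rw [h3, smul_zero, smul_zero]
    rw [h2] at h1
    exact h1.unique hasSum_zero
  have h1 := ((hD l hl).analyticOnNhd Metric.isOpen_ball).eqOn_zero_of_preconnected_of_eventuallyEq_zero
    (convex_ball _ _).isPreconnected hw hev
  obtain ⟨θ, hθ, hθ'⟩ := hne
  exact hθ' (h1 hθ)

end

theorem t_NULL : S_NULL := by
  intro θ₀ lam₀ r δ C D hr hδ hD hL hne B hB
  refine measure_mono_null (t := ⋃ n : ℕ, {t : ℝ | |t - θ₀| < r ∧ ∃ l ∈ B, |l - lam₀| < δ ∧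
    dv D n t l = 0 ∧ dv D (n + 1) t l ≠ 0}) ?_ ?_
  · rintro t ⟨ht, l, hl, hl', h0⟩
    obtain ⟨n, h1, h2⟩ := exists_ord hD hl' (hne l hl') ht h0
    exact mem_iUnion.2 ⟨n, ht, l, hl, hl', h1, h2⟩
  · rw [measure_iUnion_null_iff]
    exact fun n => ord hD hL n B hB

end Pool.Agent.H293.LK
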